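import Pool.Agent.Helper94.SQ.Tail

/-!
Few palindromes have a very large square divisor.
-/

set_option autoImplicit false

namespace Pool.Agent.Helper94.TD

open Finset Filter Topology

/-- the palindromes with `2 N + 1` digits, not divisible by `4` or `25`, which are divisible by
`d ^ 2` for some `d ≥ 10 ^ (2 R)` -/
def big (N R : ℕ) : Finset ℕ := by
  classical
  exact (Pool.Agent.Helper94.SQ.pal N).filter (fun n => Pool.Agent.Helper94.SQ.good n ∧
    ∃ d ∈ Ico (10 ^ (2 * R)) (10 ^ (N + 1)), d ^ 2 ∣ n)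

theorem mem_big {N R n p : ℕ} (h1 : n < 10 ^ (2 * N + 1)) (h2 : 10 ^ (2 * N) ≤ n)
    (h3 : (Nat.digits 10 n).reverse = Nat.digits 10 n) (hc : n.Coprime (2 * 10))
    (hp : 10 ^ (2 * R) ≤ p) (hd : p ^ 2 ∣ n) : n ∈ big N R := by
  classical
  unfold big
  rw [mem_filter]
  refine ⟨?_, ⟨?_, ?_⟩, p, ?_, hd⟩
  · rw [Pool.Agent.Helper94.SQ.pal, mem_filter, mem_range]
    exact ⟨h1, h2, h3⟩
  · intro h4
    have h5 : 2 ∣ Nat.gcd n (2 * 10) := Nat.dvd_gcd (dvd_trans (by norm_num) h4) (by norm_num)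
    rw [hc] at h5
    omega
  · intro h4
    have h5 : 5 ∣ Nat.gcd n (2 * 10) := Nat.dvd_gcd (dvd_trans (by norm_num) h4) (by norm_num)
    rw [hc] at h5
    omega
  · rw [mem_Ico]
    refine ⟨hp, ?_⟩
    have h0 : 0 < n := lt_of_lt_of_le (by positivity) h2
    have h4 := Nat.le_of_dvd h0 hd
    by_contra h5
    rw [not_lt] at h5
    have h6 : (10 ^ (N + 1)) ^ 2 ≤ p ^ 2 := Nat.pow_le_pow_left h5 2
    have h7 : 10 ^ (2 * N + 1) ≤ (10 ^ (N + 1)) ^ 2 := by
      rw [← pow_mul]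
      exact Nat.pow_le_pow_right (by norm_num) (by omega)
    omega

theorem big_card {N R : ℕ} (hR : 2 ≤ R) (h2R : 2 * R ≤ N) :
    ((big N R).card : ℝ) ≤ 26880 * (N + 1) * 10 ^ (2 * N - 2 * R) / 10 ^ R := by
  classical
  have h0 : (big N R).card ≤ ∑ d ∈ Ico (10 ^ (2 * R)) (10 ^ (N + 1)), Pool.Agent.Helper94.SQ.G N d := by
    have h1 : big N R ⊆ (Ico (10 ^ (2 * R)) (10 ^ (N + 1))).biUnion (fun d =>
        (Pool.Agent.Helper94.SQ.pal N).filter (fun n => Pool.Agent.Helper94.SQ.good n ∧ d ^ 2 ∣ n)) := by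
      intro n hn
      unfold big at hn
      rw [mem_filter] at hn
      obtain ⟨g1, g2, d, g3, g4⟩ := hn
      rw [mem_biUnion]
      exact ⟨d, g3, mem_filter.2 ⟨g1, g2, g4⟩⟩
    exact (card_le_card h1).trans card_biUnion_le
  have h0' : ((big N R).card : ℝ) ≤
      ∑ d ∈ Ico (10 ^ (2 * R)) (10 ^ (N + 1)), (Pool.Agent.Helper94.SQ.G N d : ℝ) := by
    exact_mod_cast h0
  refine h0'.trans ?_
  obtain ⟨z, hz⟩ : ∃ z, z = 10 ^ (2 * R) := ⟨_, rfl⟩
  rw [← hz]
  have hzpos : 0 < z := by rw [hz]; positivity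
  have h1 : 10 ^ (N + 1) ≤ z * 2 ^ (4 * (N + 1)) := by
    calc 10 ^ (N + 1) ≤ 16 ^ (N + 1) := Nat.pow_le_pow_left (by norm_num) _
      _ = 2 ^ (4 * (N + 1)) := by rw [pow_mul]; norm_num
      _ ≤ z * 2 ^ (4 * (N + 1)) := Nat.le_mul_of_pos_left _ hzpos
  calc ∑ d ∈ Ico z (10 ^ (N + 1)), (Pool.Agent.Helper94.SQ.G N d : ℝ)
      ≤ ∑ d ∈ Ico z (z * 2 ^ (4 * (N + 1))), (Pool.Agent.Helper94.SQ.G N d : ℝ) :=
        sum_le_sum_of_subset_of_nonneg (Ico_subset_Ico le_rfl h1) fun _ _ _ => Nat.cast_nonneg _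
    _ = ∑ j ∈ range (4 * (N + 1)), ∑ d ∈ Ico (z * 2 ^ j) (2 * (z * 2 ^ j)),
        (Pool.Agent.Helper94.SQ.G N d : ℝ) := Pool.Agent.Helper94.SQ.dyadic _ _ _
    _ ≤ ∑ _j ∈ range (4 * (N + 1)), 6720 * 10 ^ (2 * N - 2 * R) / 10 ^ R := by
        refine sum_le_sum fun j _ => ?_
        obtain ⟨D, hD⟩ : ∃ D, D = z * 2 ^ j := ⟨_, rfl⟩
        rw [← hD]
        have hDz : z ≤ D := by rw [hD]; exact Nat.le_mul_of_pos_right z (by positivity)
        rcases le_or_gt (10 ^ (N + 1)) D with h3 | h3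
        · rw [sum_eq_zero]
          · positivity
          · intro d hd
            rw [mem_Ico] at hd
            rw [Pool.Agent.Helper94.SQ.G_zero' (h3.trans hd.1), Nat.cast_zero]
        · have h4 := Pool.Agent.Helper94.SQ.tail_large (L := N) (J := N - 2 * R) (R := R) (D := D) hR
            (by omega) (by rw [← hz]; exact hDz) (by
              rw [show N - (N - 2 * R) = 2 * R by omega, ← hz]; exact hDz) h3.le (by omega)
          rwa [show N + (N - 2 * R) = 2 * N - 2 * R by omega] at h4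
    _ = 26880 * (N + 1) * 10 ^ (2 * N - 2 * R) / 10 ^ R := by
        rw [sum_const, card_range, nsmul_eq_mul]
        push_cast
        ring

end Pool.Agent.Helper94.TD
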