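import Pool.Graph.R_pool_sql_team_seeded_2aa45f1a.Q26.PL.G

/-!
Squarefree palindromes with few prime factors in arithmetic progressions.  The proof is that of
`Pool.Agent.Q26.PL.energyAP`, with the palindromes with a square divisor removed.
-/

set_option autoImplicit false

namespace Pool.Agent.Helper94.TD

open Finset Filter Topology Pool.Agent.W89.PW Pool.Agent.W139.PX Pool.Agent.Q26.PL

/-- few digit vectors give palindromes divisible by `p ^ 2` with `p > b ^ (κ L)` -/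
def SqBig (b s t : ℕ) (κ : ℝ) : Prop := ∀ (e : ℕ) (δ : ℝ), 1 ≤ e → 0 < δ → ∀ᶠ L : ℕ in atTop,
  ∀ A : ℕ, A < b ^ e → A.Coprime b → ∀ G : Finset (Fin L → Fin s × Fin t),
    (∀ m ∈ G, ∃ p : ℕ, (b : ℝ) ^ (κ * L) < p ∧ p ^ 2 ∣ PA b s t (L + e) L A m) →
    (G.card : ℝ) ≤ δ * ((s : ℝ) * t) ^ L / L

theorem classes {b s t L : ℕ} (C w : ℕ) : ∃ gg : ℕ → ℕ, ∀ p : ℕ, 0 < p → p.Coprime (2 * b) →
    ∀ m : Fin L → Fin s × Fin t, p ^ 2 ∣ C + b ^ w * sgs b s t L m → pv b s t L m ≡ gg p [MOD p ^ 2] := by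
  have h : ∀ p : ℕ, ∃ r : ℕ, 0 < p → p.Coprime (2 * b) → ∀ m : Fin L → Fin s × Fin t,
      p ^ 2 ∣ C + b ^ w * sgs b s t L m → pv b s t L m ≡ r [MOD p ^ 2] := by
    intro p
    by_cases hp : 0 < p ∧ p.Coprime (2 * b)
    · obtain ⟨r, hr⟩ := aff_cls (b := b) (s := s) (t := t) (L := L) (q := p ^ 2) C w 0
        (Nat.Coprime.pow_left 2 hp.2) (pow_pos hp.1 2)
      refine ⟨r, fun _ _ m hm => (hr m).1 ?_⟩
      exact (Nat.modEq_zero_iff_dvd).2 hm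
    · exact ⟨0, fun h1 h2 => absurd ⟨h1, h2⟩ hp⟩
  choose gg hgg using h
  exact ⟨gg, hgg⟩

theorem energySF {b s t r : ℕ} (hb : 3 ≤ b) (hs : 2 ≤ s) (hst : s ≤ t) (hbst : s + t = b + 1) {κ κ' lam : ℝ}
    (hκ0 : 0 < κ') (hκκ : κ' < κ) (hκ : (b : ℝ) ^ κ * HH s t < 1) (hm4 : (b : ℝ) * m4 s t < 1)
    (hl0 : 0 < lam) (hl1 : lam ≤ 1)
    (hlam : lam * (1174 / 1000) < 994 / 1000) (hr : 1 / lam + 88 / (43 * κ') < r + 1)
    {B η : ℝ} (hB : 1 ≤ B) (hBE : B < ((s : ℝ) * t) ^ 2 / (Eset s t).card) (hη : η < κ' / 6)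
    (hSqBig : SqBig b s t κ)
    {M a : ℕ} (hM : 0 < M) (ha : a.Coprime M) (h4 : 2 ∣ b ∨ ¬ 4 ∣ M) :
    ∀ᶠ N : ℕ in atTop, ∃ F : Finset ℕ, B ^ N ≤ (F.card : ℝ) ∧ ∀ n ∈ F, n < b ^ (2 * N + 1) ∧ b ^ (2 * N) ≤ n ∧
      (Nat.digits b n).reverse = Nat.digits b n ∧ n ≡ a [MOD M] ∧ Squarefree n ∧
      n.primeFactorsList.length ≤ r ∧
      ∀ p ∈ n.primeFactorsList, (b : ℝ) ^ (η * N) < p := by
  classical
  have hb2 : 2 ≤ b := by omega
  have hb1 : (1 : ℝ) < b := by exact_mod_cast (by omega : 1 < b)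
  have hb0 : (0 : ℝ) < b := by linarith
  have hs1 : 1 ≤ s := by omega
  have ht1 : 1 ≤ t := by omega
  have hκ1 : κ < 1 := Pool.Agent.W809.PWSqr.kappa_lt_one hb hs1 ht1 hbst hκ
  have hκp : 0 < κ := hκ0.trans hκκ
  have hH0 : 0 < HH s t := Pool.Agent.W809.PWSqr.HH_pos hs1
  have hH1 : HH s t ≤ 1 := Pool.Agent.W809.PWSqr.HH_le_one hs1 ht1
  have hHb : 1 ≤ b * HH s t := by
    have h1 := Pool.Agent.W809.PWSqr.HH_ge hs1 ht1 hbst
    have h2 : (1 : ℝ) ≤ b * (2 / ((b : ℝ) + 1)) := by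
      rw [← mul_div_assoc, le_div_iff₀ (by positivity)]
      linarith
    exact h2.trans (mul_le_mul_of_nonneg_left h1 hb0.le)
  have hMaj : MajP b s t (HH s t) 1 := majP_of_majOK hb2 hH0.le hH1
    (Pool.Agent.W139.PW.majOK_pair b s t hs1 (by omega) ht1 (by omega))
  have hPt : PtW b s t := Pool.Agent.W571.PW.Pt.main b s t hb2 hs ht1 hbst
  have hBig : BigW b s t κ := bigW_of_majP hb2 hs1 ht1 hbst hm4 hMaj hH0 hHb one_pos hκp hκ
  have hBV : BVH b s t κ := bvH hb2 hs1 ht1 hPt hκp hκ1 hBig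
  have hSq : SqH b s t κ := sqH_of_majP hMaj hH0 hHb one_pos hb2 hs1 ht1 hbst hm4 hκp hκ
  -- the modulus
  obtain ⟨u, v, e0, hM', hu, hv⟩ := split_mod (2 * b) (by omega) M hM
  have hv0 : 0 < v := by
    rcases Nat.eq_zero_or_pos v with h | h
    · subst h; simp at hM'; omega
    · exact h
  have hau : a.Coprime u := Nat.Coprime.coprime_dvd_right ⟨v, hM'⟩ ha
  have hav : a.Coprime v := Nat.Coprime.coprime_dvd_right ⟨u, by rw [hM', mul_comm]⟩ ha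
  have huv : u.Coprime v := by
    have h1 : v.Coprime ((2 * b) ^ e0) := hv.pow_right e0
    exact (Nat.Coprime.coprime_dvd_right hu h1).symm
  obtain ⟨A, e, he1, hAlt, hAc, hAcl⟩ := last_digits hb2 hu hau (h4.imp id fun h h' =>
    h (h'.trans ⟨v, hM'⟩))
  obtain ⟨c, hc0, L0, hmain⟩ := prog (s := s) (t := t) (r := r) (M := v) (2 * e + 1) hb2 hs1 ht1 hv0 hv
    hκ0 hκκ hκ1 hBV hSq hl0 hl1 hlam hr
  obtain ⟨Z, hZ⟩ : ∃ Z : ℝ, Z = ((s : ℝ) * t) ^ 2 / (Eset s t).card := ⟨_, rfl⟩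
  rw [← hZ] at hBE
  have hZ0 : 0 < Z := by linarith
  have hEc : 0 < (Eset s t).card := by
    apply card_pos.2
    refine ⟨((⟨0, by omega⟩, ⟨0, by omega⟩), (⟨0, by omega⟩, ⟨0, by omega⟩)), ?_⟩
    unfold Eset
    simp
  have hER : (0 : ℝ) < (Eset s t).card := by exact_mod_cast hEc
  have hB0 : 0 < B := by linarith
  have hs0R : (0 : ℝ) < s := by exact_mod_cast (by omega : 0 < s)
  have ht0R : (0 : ℝ) < t := by exact_mod_cast (by omega : 0 < t)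
  -- the exponential beats the square
  have h1 : ∀ᶠ L : ℕ in atTop, (L : ℝ) ^ 2 * (B / Z) ^ L < (c / 2) ^ 2 / B ^ e := by
    have h2 := tendsto_pow_const_mul_const_pow_of_abs_lt_one 2 (r := B / Z) (by
      rw [abs_of_pos (by positivity), div_lt_one hZ0]
      exact hBE)
    exact h2.eventually (gt_mem_nhds (by positivity))
  have h2 : ∀ᶠ L : ℕ in atTop, η * e ≤ (κ' / 6 - η) * (L : ℝ) :=
    ((tendsto_natCast_atTop_atTop (R := ℝ)).const_mul_atTop (by linarith)).eventually_ge_atTop _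
  have h2' : ∀ᶠ L : ℕ in atTop, 1 ≤ c / 4 * (L : ℝ) :=
    ((tendsto_natCast_atTop_atTop (R := ℝ)).const_mul_atTop (by linarith)).eventually_ge_atTop _
  have h2a := hSq (κ' / 6) (by linarith) 2
  have h2b := hSqBig e (c / 4) he1 (by linarith)
  obtain ⟨L1, hL1⟩ := eventually_atTop.1 (h1.and (h2.and (h2'.and (h2a.and h2b))))
  rw [eventually_atTop]
  refine ⟨max (max L0 L1) 1 + e, fun N hN => ?_⟩
  obtain ⟨L, hNL⟩ : ∃ L, N = L + e := ⟨N - e, by omega⟩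
  have hLm : max (max L0 L1) 1 ≤ L := by omega
  have hLL0 : L0 ≤ L := (le_max_left _ _).trans ((le_max_left _ _).trans hLm)
  have hLL1 : L1 ≤ L := (le_max_right _ _).trans ((le_max_left _ _).trans hLm)
  have hL1' : 1 ≤ L := (le_max_right _ _).trans hLm
  have hL0R : (0 : ℝ) < L := by exact_mod_cast hL1'
  have hN1 : L + 1 ≤ N := by omega
  obtain ⟨h5, h6, h6c, h6a, h6b⟩ := hL1 L hLL1
  have hPAe : ∀ m : Fin L → Fin s × Fin t, CA b N L A + b ^ (N - L - 1) * sgs b s t L m = PA b s t N L A m :=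
    fun m => (PA_eq A hN1 m).symm
  obtain ⟨G, hG1, hG2⟩ := hmain L hLL0 (CA b N L A) (N - L - 1) a hav (by
    intro m
    rw [hPAe]
    refine ⟨?_, ?_, PA_cop hb2 he1 hNL hAlt hAc m⟩
    · exact lt_of_lt_of_le (by positivity) (PA_ge hb2 he1 hNL hAc m)
    · have := PA_lt hb2 hbst N L A m
      rwa [show 2 * L + (2 * e + 1) = 2 * N + 1 by omega])
  -- the palindromes with square divisors
  obtain ⟨gg, hgg⟩ := classes (b := b) (s := s) (t := t) (L := L) (CA b N L A) (N - L - 1)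
  obtain ⟨B1, hB1⟩ : ∃ B1, B1 = (univ : Finset (Fin L → Fin s × Fin t)).filter (fun m => ∃ p : ℕ,
      p.Coprime (2 * b) ∧ (b : ℝ) ^ (κ' / 6 * L) ≤ p ∧ (p : ℝ) ≤ (b : ℝ) ^ (κ * L) ∧
      pv b s t L m ≡ gg p [MOD p ^ 2]) := ⟨_, rfl⟩
  obtain ⟨B2, hB2⟩ : ∃ B2, B2 = (univ : Finset (Fin L → Fin s × Fin t)).filter (fun m => ∃ p : ℕ,
      (b : ℝ) ^ (κ * L) < p ∧ p ^ 2 ∣ PA b s t (L + e) L A m) := ⟨_, rfl⟩
  have hB1c : (B1.card : ℝ) ≤ c / 4 * (((s : ℝ) * t) ^ L / L) := by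
    have g1 := h6a gg
    rw [← hB1] at g1
    refine g1.trans ?_
    have g2 : (0 : ℝ) < ((s : ℝ) * t) ^ L / (L : ℝ) ^ 2 := by positivity
    calc ((s : ℝ) * t) ^ L / (L : ℝ) ^ 2 = ((s : ℝ) * t) ^ L / (L : ℝ) ^ 2 * 1 := by ring
      _ ≤ ((s : ℝ) * t) ^ L / (L : ℝ) ^ 2 * (c / 4 * L) := mul_le_mul_of_nonneg_left h6c g2.le
      _ = c / 4 * (((s : ℝ) * t) ^ L / L) := by field_simp
  have hB2c : (B2.card : ℝ) ≤ c / 4 * (((s : ℝ) * t) ^ L / L) := by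
    have g1 := h6b A hAlt hAc B2 (by
      intro m hm
      rw [hB2, mem_filter] at hm
      exact hm.2)
    rwa [mul_div_assoc] at g1
  obtain ⟨G', hG'⟩ : ∃ G', G' = G \ (B1 ∪ B2) := ⟨_, rfl⟩
  have hG'1 : c / 2 * ((s : ℝ) * t) ^ L / L ≤ G'.card := by
    have g1 : G.card ≤ G'.card + (B1 ∪ B2).card := by
      rw [hG']
      have := le_card_sdiff (B1 ∪ B2) G
      omega
    have g2 : (B1 ∪ B2).card ≤ B1.card + B2.card := card_union_le _ _
    have g3 : (G.card : ℝ) ≤ G'.card + (B1.card + B2.card) := by exact_mod_cast (by omega)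
    have g4 : c * ((s : ℝ) * t) ^ L / L = c / 2 * ((s : ℝ) * t) ^ L / L +
        (c / 4 * (((s : ℝ) * t) ^ L / L) + c / 4 * (((s : ℝ) * t) ^ L / L)) := by ring
    linarith
  refine ⟨G'.image (PA b s t N L A), ?_, ?_⟩
  · rw [image_card hb2 A hN1 G']
    have g1 := card_sq_le (b := b) hb hbst G'
    have g2 : (G'.card : ℝ) ^ 2 ≤ ((G'.image (pv b s t L)).card : ℝ) * ((Eset s t).card : ℝ) ^ L := by
      exact_mod_cast g1
    have g3 : (c / 2 * ((s : ℝ) * t) ^ L / L) ^ 2 ≤ (G'.card : ℝ) ^ 2 :=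
      pow_le_pow_left₀ (by positivity) hG'1 2
    have g4 := g3.trans g2
    rw [← div_le_iff₀ (by positivity)] at g4
    refine le_trans ?_ g4
    have g5 : (c / 2 * ((s : ℝ) * t) ^ L / L) ^ 2 / ((Eset s t).card : ℝ) ^ L =
        (c / 2) ^ 2 * Z ^ L / (L : ℝ) ^ 2 := by
      rw [hZ, div_pow (((s : ℝ) * t) ^ 2), ← pow_mul, mul_comm 2 L, pow_mul]
      field_simp
    rw [g5]
    have hBA : (B / Z) ^ L = B ^ L / Z ^ L := div_pow _ _ _
    rw [hBA] at h5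
    have hAL : 0 < Z ^ L := by positivity
    rw [lt_div_iff₀ (by positivity)] at h5
    have h8 : (L : ℝ) ^ 2 * (B ^ L / Z ^ L) * B ^ e = (L : ℝ) ^ 2 * B ^ N / Z ^ L := by
      rw [hNL, pow_add]; ring
    rw [h8, div_lt_iff₀ hAL] at h5
    rw [le_div_iff₀ (by positivity)]
    linarith
  · intro n hn
    rw [mem_image] at hn
    obtain ⟨m, hm, rfl⟩ := hn
    rw [hG', Finset.mem_sdiff, Finset.mem_union, not_or] at hm
    obtain ⟨hmG, hm1, hm2⟩ := hm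
    have h9 := hG2 m hmG
    rw [hPAe] at h9
    obtain ⟨g1, g2, g3⟩ := h9
    have hcop := PA_cop hb2 he1 hNL hAlt hAc m
    have hpos : 0 < PA b s t N L A m := lt_of_lt_of_le (by positivity) (PA_ge hb2 he1 hNL hAc m)
    refine ⟨PA_lt hb2 hbst N L A m, PA_ge hb2 he1 hNL hAc m, PA_pal hb2 hbst he1 hNL hAc m, ?_, ?_, g2,
      fun p hp => lt_of_le_of_lt ?_ (g3 p hp)⟩
    · rw [hM']
      refine (Nat.modEq_and_modEq_iff_modEq_mul huv).1 ⟨?_, g1⟩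
      exact hAcl _ (PA_mod hNL hAlt m)
        (Nat.Coprime.coprime_dvd_right (dvd_mul_right 2 b) (PA_cop hb2 he1 hNL hAlt hAc m))
    · rw [Nat.squarefree_iff_prime_squarefree]
      intro p hp hpp
      have k0 : p ^ 2 ∣ PA b s t N L A m := by rw [pow_two]; exact hpp
      have k1 : p ∣ PA b s t N L A m := (Dvd.intro_left p rfl).trans hpp
      have k2 : p ∈ (PA b s t N L A m).primeFactorsList :=
        (Nat.mem_primeFactorsList hpos.ne').2 ⟨hp, k1⟩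
      have k3 := g3 p k2
      have k4 : p.Coprime (2 * b) := Nat.Coprime.coprime_dvd_left k1 hcop
      rcases le_or_gt (p : ℝ) ((b : ℝ) ^ (κ * L)) with k5 | k5
      · apply hm1
        rw [hB1, mem_filter]
        refine ⟨mem_univ _, p, k4, k3.le, k5, hgg p hp.pos k4 m ?_⟩
        rw [hPAe]
        exact k0
      · apply hm2
        rw [hB2, mem_filter]
        refine ⟨mem_univ _, p, k5, ?_⟩
        rw [← hNL]
        exact k0
    · apply Real.rpow_le_rpow_of_exponent_le hb1.le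
      rw [hNL]
      push_cast
      linarith

end Pool.Agent.Helper94.TD
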