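import Pool.Agent.Helper94.TD.Energy
import Pool.Agent.Helper94.TD.Big

/-!
Decimal palindromes with at most three prime factors, all of them different.
-/

set_option autoImplicit false

namespace Pool.Agent.Helper94.TD

open Finset Filter Topology Pool.Agent.W89.PW Pool.Agent.W139.PX Pool.Agent.Q26.PL

theorem power_bound {N R : ℕ} (hR : R = 11 * N / 30) :
    (10 : ℝ) ^ (2 * N - 2 * R) / 10 ^ R ≤ 1000 * (159 / 20) ^ N := by
  obtain ⟨K, hK⟩ : ∃ K, K = 2 * N - 3 * R := ⟨_, rfl⟩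
  have h1 : (10 : ℝ) ^ (2 * N - 2 * R) / 10 ^ R = 10 ^ K := by
    rw [show 2 * N - 2 * R = K + R by omega, pow_add]
    field_simp
  rw [h1]
  have h2 : ((10 : ℝ) ^ K) ^ 10 ≤ (1000 * (159 / 20) ^ N) ^ 10 := by
    have e1 : ((10 : ℝ) ^ K) ^ 10 = 10 ^ (K * 10) := by rw [← pow_mul]
    have e2 : (1000 * (159 / 20 : ℝ) ^ N) ^ 10 = (1000 : ℝ) ^ 10 * ((159 / 20 : ℝ) ^ 10) ^ N := by
      rw [mul_pow, ← pow_mul, ← pow_mul, mul_comm N 10]
    rw [e1, e2]
    have h3 : (10 : ℝ) ^ (K * 10) ≤ 10 ^ (30 + 9 * N) :=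
      pow_le_pow_right₀ (by norm_num) (by omega)
    have h4 : (10 : ℝ) ^ (30 + 9 * N) = (1000 : ℝ) ^ 10 * ((10 : ℝ) ^ 9) ^ N := by
      rw [pow_add, pow_mul (10 : ℝ) 9 N]
      congr 1
      norm_num
    have h5 : (10 : ℝ) ^ 9 ≤ (159 / 20 : ℝ) ^ 10 := by norm_num
    rw [h4] at h3
    refine h3.trans ?_
    apply mul_le_mul_of_nonneg_left _ (by positivity)
    exact pow_le_pow_left₀ (by positivity) h5 N
  exact le_of_pow_le_pow_left₀ (by norm_num) (by positivity) h2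

theorem bad_card {N L A R : ℕ} (hN : L + 1 ≤ N) (G : Finset (Fin L → Fin 5 × Fin 6))
    (hG : ∀ m ∈ G, PA 10 5 6 N L A m ∈ big N R) :
    (G.card : ℝ) ^ 2 ≤ (big N R).card * 110 ^ L := by
  classical
  have hE : (Eset 5 6).card = 110 := by decide +kernel
  have h1 := card_sq_le (b := 10) (s := 5) (t := 6) (L := L) (by norm_num) (by norm_num) G
  have h2 := image_card (b := 10) (s := 5) (t := 6) (by norm_num) A hN G
  rw [hE, ← h2] at h1
  have h3 : (G.image (PA 10 5 6 N L A)).card ≤ (big N R).card := by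
    apply card_le_card
    intro n hn
    rw [mem_image] at hn
    obtain ⟨m, hm, rfl⟩ := hn
    exact hG m hm
  have h4 : G.card ^ 2 ≤ (big N R).card * 110 ^ L := h1.trans (Nat.mul_le_mul_right _ h3)
  exact_mod_cast h4

theorem sqBig : SqBig 10 5 6 (736 / 1000) := by
  intro e δ he hδ
  obtain ⟨C, hC⟩ : ∃ C : ℝ, C = 26880000 * (e + 2) * (159 / 20) ^ e := ⟨_, rfl⟩
  have hC0 : 0 < C := by rw [hC]; positivity
  have h1 : ∀ᶠ L : ℕ in atTop, (L : ℝ) ^ 3 * (1749 / 1800 : ℝ) ^ L < δ ^ 2 / C := by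
    have h2 := tendsto_pow_const_mul_const_pow_of_abs_lt_one 3 (r := (1749 / 1800 : ℝ)) (by
      rw [abs_of_pos (by norm_num)]; norm_num)
    exact h2.eventually (gt_mem_nhds (by positivity))
  filter_upwards [h1, eventually_ge_atTop (275 * e + 10)] with L h2 h3
  intro A hA hAc G hG
  have hL1 : 1 ≤ L := by omega
  have hL0 : (0 : ℝ) < L := by exact_mod_cast hL1
  obtain ⟨N, hN⟩ : ∃ N, N = L + e := ⟨_, rfl⟩
  obtain ⟨R, hR⟩ : ∃ R, R = 11 * N / 30 := ⟨_, rfl⟩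
  have hR2 : 2 ≤ R := by omega
  have h2R : 2 * R ≤ N := by omega
  have hmem : ∀ m ∈ G, PA 10 5 6 N L A m ∈ big N R := by
    intro m hm
    obtain ⟨p, hp1, hp2⟩ := hG m hm
    rw [← hN] at hp2
    refine mem_big (PA_lt (by norm_num) (by norm_num) N L A m)
      (PA_ge (by norm_num) he hN hAc m) (PA_pal (by norm_num) (by norm_num) he hN hAc m)
      (PA_cop (by norm_num) he hN hA hAc m) ?_ hp2
    have h4 : ((10 ^ (2 * R) : ℕ) : ℝ) ≤ ((10 : ℕ) : ℝ) ^ ((736 / 1000 : ℝ) * L) := by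
      push_cast
      rw [← Real.rpow_natCast]
      apply Real.rpow_le_rpow_of_exponent_le (by norm_num)
      have h5 : 1000 * (2 * R) ≤ 736 * L := by omega
      have h6 : (1000 : ℝ) * ((2 * R : ℕ) : ℝ) ≤ 736 * L := by exact_mod_cast h5
      linarith
    have h7 : ((10 ^ (2 * R) : ℕ) : ℝ) < (p : ℝ) := lt_of_le_of_lt h4 hp1
    exact_mod_cast h7.le
  have h4 := bad_card (A := A) (R := R) (by omega : L + 1 ≤ N) G hmem
  have h5 := big_card hR2 h2R
  have h6 := power_bound hR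
  have h7 : (G.card : ℝ) ^ 2 ≤ (δ * (((5 : ℕ) : ℝ) * ((6 : ℕ) : ℝ)) ^ L / L) ^ 2 := by
    have k1 : ((N : ℝ) + 1) ≤ (e + 2) * L := by
      have : N + 1 ≤ (e + 2) * L := by
        rw [hN]
        nlinarith
      exact_mod_cast this
    have k2 : ((big N R).card : ℝ) ≤ C * L * (159 / 20) ^ L := by
      calc ((big N R).card : ℝ) ≤ 26880 * (N + 1) * 10 ^ (2 * N - 2 * R) / 10 ^ R := h5
        _ = 26880 * (N + 1) * (10 ^ (2 * N - 2 * R) / 10 ^ R) := by ring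
        _ ≤ 26880 * ((e + 2) * L) * (1000 * (159 / 20) ^ N) := by gcongr
        _ = C * L * (159 / 20) ^ L := by
          rw [hC, hN, pow_add]
          ring
    have k3 : C * ((L : ℝ) ^ 3 * (1749 / 1800 : ℝ) ^ L) < δ ^ 2 := by
      rw [lt_div_iff₀ hC0] at h2
      linarith
    have k4 : (1749 / 1800 : ℝ) ^ L = (159 / 20) ^ L * 110 ^ L / 900 ^ L := by
      rw [← mul_pow, ← div_pow]
      norm_num
    rw [k4] at k3
    have k5 : (0 : ℝ) < 900 ^ L := by positivity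
    have k6 : C * ((L : ℝ) ^ 3 * ((159 / 20) ^ L * 110 ^ L)) < δ ^ 2 * 900 ^ L := by
      have : C * ((L : ℝ) ^ 3 * ((159 / 20) ^ L * 110 ^ L / 900 ^ L)) =
          C * ((L : ℝ) ^ 3 * ((159 / 20) ^ L * 110 ^ L)) / 900 ^ L := by ring
      rw [this, div_lt_iff₀ k5] at k3
      exact k3
    calc (G.card : ℝ) ^ 2 ≤ (big N R).card * 110 ^ L := h4
      _ ≤ C * L * (159 / 20) ^ L * 110 ^ L := by gcongr
      _ = C * ((L : ℝ) ^ 3 * ((159 / 20) ^ L * 110 ^ L)) / (L : ℝ) ^ 2 := by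
        field_simp
      _ ≤ δ ^ 2 * 900 ^ L / (L : ℝ) ^ 2 := by gcongr
      _ = (δ * (((5 : ℕ) : ℝ) * ((6 : ℕ) : ℝ)) ^ L / L) ^ 2 := by
        have k7 : (900 : ℝ) ^ L = ((((5 : ℕ) : ℝ) * ((6 : ℕ) : ℝ)) ^ L) ^ 2 := by
          rw [← pow_mul, mul_comm L 2, pow_mul]
          norm_num
        rw [k7]
        ring
  exact le_of_pow_le_pow_left₀ (by norm_num) (by positivity) h7

/-- base 10: three different prime factors in residue classes -/
theorem three10 {M a : ℕ} (hM : 0 < M) (ha : a.Coprime M) :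
    ∀ᶠ N : ℕ in atTop, ∃ F : Finset ℕ, (8 : ℝ) ^ N ≤ (F.card : ℝ) ∧ ∀ n ∈ F, n < 10 ^ (2 * N + 1) ∧
      10 ^ (2 * N) ≤ n ∧ (Nat.digits 10 n).reverse = Nat.digits 10 n ∧ n ≡ a [MOD M] ∧
      Squarefree n ∧ n.primeFactorsList.length ≤ 3 ∧
      ∀ p ∈ n.primeFactorsList, ((10 : ℕ) : ℝ) ^ ((1 / 9) * (N : ℝ)) < p := by
  have hm4 : ((10 : ℕ) : ℝ) * m4 5 6 < 1 := by
    have h := Pool.Agent.W22.PWM4.main 10 (by norm_num)
    norm_num at h
    push_cast
    linarith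
  have hκ : (((10 : ℕ) : ℝ)) ^ (736 / 1000 : ℝ) * HH 5 6 < 1 := by
    have h1 : (10 : ℝ) ^ (736 / 1000 : ℝ) < 60 / 11 := by
      have h2 : ((10 : ℝ) ^ (736 / 1000 : ℝ)) ^ 125 < (60 / 11) ^ 125 := by
        rw [← Real.rpow_natCast, ← Real.rpow_mul (by norm_num)]
        have e : (736 / 1000 : ℝ) * ((125 : ℕ) : ℝ) = ((92 : ℕ) : ℝ) := by norm_num
        rw [e, Real.rpow_natCast]
        norm_num
      exact lt_of_pow_lt_pow_left₀ 125 (by norm_num) h2
    unfold HH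
    push_cast
    nlinarith
  have hE : (Eset 5 6).card = 110 := by decide +kernel
  exact energySF (b := 10) (s := 5) (t := 6) (r := 3) (κ := 736 / 1000) (κ' := 735 / 1000) (lam := 83 / 100)
    (B := 8) (η := 1 / 9) (by norm_num) (by norm_num) (by norm_num) (by norm_num) (by norm_num) (by norm_num)
    hκ hm4 (by norm_num) (by norm_num) (by norm_num) (by norm_num) (by norm_num) (by rw [hE]; norm_num)
    (by norm_num) sqBig hM ha (Or.inl (by norm_num))

end Pool.Agent.Helper94.TD
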